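import Pool.Agent.H784.TH.DivCore
import Pool.Agent.H500.TH.Stm

/-! # Project TH (helper500), part A2: the sum of the inverses of the primes `≡ 1 mod g` diverges -/

set_option autoImplicit false

namespace Pool.Agent.H784.TH.Div

theorem main : Pool.Agent.H500.TH.S_Div := core

end Pool.Agent.H784.TH.Div
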