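import Mathlib

/-! # The sum of the inverses of the primes in an invertible residue class diverges

(helper784, for project TH of helper500, part A2) -/

set_option autoImplicit false

namespace Pool.Agent.H784.TH.Div

open ArithmeticFunction ArithmeticFunction.vonMangoldt

/-- primes in a residue class -/
def PP {q : ℕ} (a : ZMod q) : Set ℕ := {p : ℕ | p.Prime ∧ (p : ZMod q) = a}

/-- the prime part of the von Mangoldt function on the class -/
noncomputable def fp {q : ℕ} (a : ZMod q) (n : ℕ) : ℝ := if n.Prime then residueClass a n else 0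

theorem fp_nonneg {q : ℕ} (a : ZMod q) (n : ℕ) : 0 ≤ fp a n := by
  unfold fp
  split_ifs
  · exact residueClass_nonneg a n
  · exact le_rfl

open Classical in
theorem fp_eq {q : ℕ} (a : ZMod q) (n : ℕ) : fp a n = if n ∈ PP a then Real.log n else 0 := by
  unfold fp
  by_cases hp : n.Prime
  · rw [if_pos hp]
    by_cases hn : (n : ZMod q) = a
    · rw [if_pos (show n ∈ PP a from ⟨hp, hn⟩)]
      unfold residueClass
      rw [Set.indicator_of_mem (show n ∈ {n : ℕ | (n : ZMod q) = a} from hn)]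
      exact vonMangoldt_apply_prime hp
    · rw [if_neg (show n ∉ PP a from fun h => hn h.2)]
      unfold residueClass
      rw [Set.indicator_of_notMem (show n ∉ {n : ℕ | (n : ZMod q) = a} from hn)]
  · rw [if_neg hp, if_neg (show n ∉ PP a from fun h => hp h.1)]

open Classical in
/-- inverse powers of the primes in the class -/
noncomputable def hx {q : ℕ} (a : ZMod q) (x : ℝ) (n : ℕ) : ℝ := if n ∈ PP a then (n : ℝ) ^ (-x) else 0

theorem hx_nonneg {q : ℕ} (a : ZMod q) (x : ℝ) (n : ℕ) : 0 ≤ hx a x n := by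
  unfold hx
  split_ifs
  · positivity
  · exact le_rfl

theorem hx_anti {q : ℕ} (a : ZMod q) {x y : ℝ} (hxy : x ≤ y) (n : ℕ) : hx a y n ≤ hx a x n := by
  unfold hx
  split_ifs with h
  · have h1 : (1 : ℝ) ≤ n := by exact_mod_cast h.1.one_le
    exact Real.rpow_le_rpow_of_exponent_le h1 (by linarith)
  · exact le_rfl

/-- the key inequality -/
theorem key {q : ℕ} (a : ZMod q) (x d : ℝ) (n : ℕ) : d * (fp a n / (n : ℝ) ^ x) ≤
    hx a (x - d) n - hx a x n := by
  rw [fp_eq]
  unfold hx
  split_ifs with h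
  · have h1 : (0 : ℝ) < n := by exact_mod_cast h.1.pos
    have h2 : (n : ℝ) ^ (-(x - d)) = (n : ℝ) ^ (-x) * (n : ℝ) ^ d := by
      rw [← Real.rpow_add h1]
      congr 1; ring
    have h3 : 1 + d * Real.log n ≤ (n : ℝ) ^ d := by
      rw [Real.rpow_def_of_pos h1]
      have := Real.add_one_le_exp (Real.log n * d)
      linarith
    have h4 : (0 : ℝ) < (n : ℝ) ^ (-x) := Real.rpow_pos_of_pos h1 _
    rw [h2, div_eq_mul_inv, ← Real.rpow_neg h1.le]
    nlinarith [mul_le_mul_of_nonneg_left h3 h4.le]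
  · simp

theorem not_bdd {q : ℕ} [NeZero q] {a : ZMod q} (ha : IsUnit a) : ¬ Summable (hx a 1) := by
  intro H
  obtain ⟨C, hC⟩ := LSeries_residueClass_lower_bound ha
  have hnp := summable_residueClass_non_primes_div a
  set D : ℝ := ∑' n : ℕ, (if n.Prime then 0 else residueClass a n) / (n : ℝ) with hD
  have hsum : ∀ x : ℝ, 1 ≤ x → Summable (hx a x) := fun x hx1 =>
    Summable.of_nonneg_of_le (hx_nonneg a x) (hx_anti a hx1) H
  -- one step
  have hstep : ∀ (x d : ℝ), 0 < d → 1 ≤ x - d → x ≤ 2 → 1 < x →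
      d * ((q.totient : ℝ)⁻¹ / (x - 1) - C - D) ≤ ∑' n, hx a (x - d) n - ∑' n, hx a x n := by
    intro x d hd hxd hx2 hx1
    have s1 : Summable (fun n : ℕ => fp a n / (n : ℝ) ^ x) := by
      have s0 : Summable (fun n : ℕ => (hx a (x - d) n - hx a x n) / d) :=
        ((hsum _ hxd).sub (hsum _ hx1.le)).div_const d
      refine Summable.of_nonneg_of_le (fun n => div_nonneg (fp_nonneg a n) (by positivity))
        (fun n => ?_) s0
      rw [le_div_iff₀ hd, mul_comm]
      exact key a x d n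
    have s2' : ∀ n : ℕ, (if n.Prime then 0 else residueClass a n) / (n : ℝ) ^ x ≤
        (if n.Prime then 0 else residueClass a n) / (n : ℝ) := by
      intro n
      rcases n.eq_zero_or_pos with rfl | hn
      · simp
      · refine div_le_div_of_nonneg_left ?_ (by exact_mod_cast hn) ?_
        · split_ifs
          · exact le_rfl
          · exact residueClass_nonneg a n
        · conv_lhs => rw [← Real.rpow_one (n : ℝ)]
          exact Real.rpow_le_rpow_of_exponent_le (by exact_mod_cast hn) hx1.le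
    have s2 : Summable (fun n : ℕ => (if n.Prime then 0 else residueClass a n) / (n : ℝ) ^ x) := by
      refine Summable.of_nonneg_of_le (fun n => ?_) s2' hnp
      refine div_nonneg ?_ (by positivity)
      split_ifs
      · exact le_rfl
      · exact residueClass_nonneg a n
    have e1 : ∑' n : ℕ, residueClass a n / (n : ℝ) ^ x =
        ∑' n : ℕ, fp a n / (n : ℝ) ^ x +
          ∑' n : ℕ, (if n.Prime then 0 else residueClass a n) / (n : ℝ) ^ x := by
      rw [← s1.tsum_add s2]
      refine tsum_congr (fun n => ?_)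
      unfold fp
      by_cases hp : n.Prime
      · simp [hp]
      · simp [hp]
    have h1 := hC (x := x) ⟨hx1, hx2⟩
    rw [e1] at h1
    have h2 : ∑' n : ℕ, (if n.Prime then 0 else residueClass a n) / (n : ℝ) ^ x ≤ D :=
      s2.tsum_le_tsum s2' hnp
    have h3 : d * ∑' n : ℕ, fp a n / (n : ℝ) ^ x ≤ ∑' n, hx a (x - d) n - ∑' n, hx a x n := by
      rw [← tsum_mul_left, ← (hsum _ hxd).tsum_sub (hsum _ hx1.le)]
      exact (s1.mul_left d).tsum_le_tsum (key a x d) ((hsum _ hxd).sub (hsum _ hx1.le))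
    refine le_trans ?_ h3
    exact mul_le_mul_of_nonneg_left (by linarith) hd.le
  -- the sequence
  set c : ℝ := (q.totient : ℝ)⁻¹ with hc
  have hcpos : 0 < c := inv_pos.mpr (by exact_mod_cast q.totient.pos_of_neZero)
  set M : ℝ := |C| + |D| with hM
  have hM0 : 0 ≤ M := by positivity
  have hK : ∀ K : ℕ, c / 2 * K - M * (1 - (1 / 2) ^ K) ≤ ∑' n, hx a (1 + (1 / 2) ^ K) n := by
    intro K
    induction K with
    | zero =>
      simp only [Nat.cast_zero, mul_zero, pow_zero, sub_self]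
      exact tsum_nonneg (hx_nonneg a _)
    | succ k ih =>
      have hp : (0 : ℝ) < (1 / 2) ^ k := by positivity
      have hp1 : ((1 : ℝ) / 2) ^ k ≤ 1 := pow_le_one₀ (by norm_num) (by norm_num)
      have h1 := hstep (1 + (1 / 2) ^ k) ((1 / 2) ^ (k + 1)) (by positivity)
        (by rw [pow_succ]; linarith) (by linarith) (by linarith)
      have e2 : (1 : ℝ) + (1 / 2) ^ k - (1 / 2) ^ (k + 1) = 1 + (1 / 2) ^ (k + 1) := by
        rw [pow_succ]; ring
      rw [e2] at h1
      have e3 : ((1 : ℝ) / 2) ^ (k + 1) * (c / (1 + (1 / 2) ^ k - 1) - C - D) =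
          c / 2 - (C + D) * (1 / 2) ^ (k + 1) := by
        rw [add_sub_cancel_left, pow_succ]
        field_simp
        ring
      rw [e3] at h1
      have h4 : (C + D) * (1 / 2) ^ (k + 1) ≤ M * (1 / 2) ^ (k + 1) := by
        refine mul_le_mul_of_nonneg_right ?_ (by positivity)
        rw [hM]
        exact add_le_add (le_abs_self C) (le_abs_self D)
      have e5 : c / 2 * ((k + 1 : ℕ) : ℝ) - M * (1 - (1 / 2) ^ (k + 1)) =
          (c / 2 * k - M * (1 - (1 / 2) ^ k)) + (c / 2 - M * (1 / 2) ^ (k + 1)) := by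
        push_cast
        rw [pow_succ]; ring
      rw [e5]
      linarith
  -- contradiction
  obtain ⟨K, hKbig⟩ := exists_nat_gt ((∑' n, hx a 1 n + M) / (c / 2))
  rw [div_lt_iff₀ (by positivity)] at hKbig
  have h6 := hK K
  have h7 : ∑' n, hx a (1 + (1 / 2) ^ K) n ≤ ∑' n, hx a 1 n :=
    (hsum _ (by simp)).tsum_le_tsum (hx_anti a (by simp)) H
  have h8 : M * (1 - (1 / 2) ^ K) ≤ M := by
    have : (0 : ℝ) < (1 / 2) ^ K := by positivity
    nlinarith
  linarith

/-- the statement `S_Div` of helper500 -/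
theorem core : ∀ (g r0 : ℕ) (ε : ℝ), 0 < g → 0 < ε → ∃ R : Finset ℕ,
    (∀ r ∈ R, r.Prime ∧ r0 < r ∧ g ∣ r - 1) ∧ ∏ r ∈ R, (1 - 1 / (2 * (r : ℝ))) < ε := by
  classical
  intro g r0 ε hg hε
  by_contra hcon
  push Not at hcon
  have : NeZero g := ⟨hg.ne'⟩
  have hb : ∀ R : Finset ℕ, (∀ r ∈ R, r.Prime ∧ r0 < r ∧ g ∣ r - 1) → ∑ r ∈ R, (r : ℝ)⁻¹ ≤
      2 * (-Real.log ε) := by
    intro R hR
    have h1 := hcon R hR
    have h2 : ∏ r ∈ R, (1 - 1 / (2 * (r : ℝ))) ≤ Real.exp (-∑ r ∈ R, 1 / (2 * (r : ℝ))) := by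
      rw [← Finset.sum_neg_distrib, Real.exp_sum]
      apply Finset.prod_le_prod
      · intro r hr
        have h3 : (1 : ℝ) ≤ r := by exact_mod_cast (hR r hr).1.one_le
        have h4 : 1 / (2 * (r : ℝ)) ≤ 1 := by
          rw [div_le_one (by linarith)]
          linarith
        linarith
      · intro r _
        have := Real.add_one_le_exp (-(1 / (2 * (r : ℝ))))
        linarith
    have h3 := Real.log_le_log hε (h1.trans h2)
    rw [Real.log_exp] at h3
    have h4 : ∑ r ∈ R, (r : ℝ)⁻¹ = 2 * ∑ r ∈ R, 1 / (2 * (r : ℝ)) := by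
      rw [Finset.mul_sum]
      refine Finset.sum_congr rfl fun r _ => ?_
      rw [one_div, mul_inv, ← mul_assoc, mul_inv_cancel₀ (by norm_num : (2 : ℝ) ≠ 0),
        one_mul]
    rw [h4]
    linarith
  refine not_bdd (q := g) (a := 1) isUnit_one ?_
  refine summable_of_sum_le (c := 2 * (-Real.log ε) + ∑ r ∈ Finset.range (r0 + 1), (r : ℝ)⁻¹)
      (hx_nonneg _ _) ?_
  intro u
  have e : ∑ n ∈ u, hx (1 : ZMod g) 1 n = ∑ n ∈ u.filter (fun n => n ∈ PP (1 : ZMod g)), (n : ℝ)⁻¹ := by
    rw [Finset.sum_filter]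
    refine Finset.sum_congr rfl (fun n _ => ?_)
    unfold hx
    split_ifs with h
    · rw [Real.rpow_neg_one]
    · rfl
  rw [e, ← Finset.sum_filter_add_sum_filter_not _ (fun n => r0 < n)]
  apply add_le_add
  · apply hb
    intro r hr
    rw [Finset.mem_filter, Finset.mem_filter] at hr
    obtain ⟨⟨-, hr1, hr2⟩, hr3⟩ := hr
    refine ⟨hr1, hr3, ?_⟩
    have h1 : ((1 : ℕ) : ZMod g) = (r : ZMod g) := by rw [hr2, Nat.cast_one]
    rw [ZMod.natCast_eq_natCast_iff] at h1
    exact (Nat.modEq_iff_dvd' hr1.one_le).mp h1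
  · apply Finset.sum_le_sum_of_subset_of_nonneg
    · intro r hr
      rw [Finset.mem_filter] at hr
      rw [Finset.mem_range]
      omega
    · intro r _ _
      positivity

end Pool.Agent.H784.TH.Div
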